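import Mathlib
import Pool.Agent.H16.QD4
import Pool.Agent.H16.QD4b

/-!
MP_0ba956_nt, Q1: yes, and three `D₄`-extensions suffice.  If `α` is a root of
`x⁸+84x⁶+1260x⁴+5292x²+441` then, for suitable square roots `X` of `3` and `Y` of `14`,
`α² = (1/2) (Y - 4) (3 + X) (7 + X Y)`.  The elements `Y - 4`, `3 + X`, `7 + X Y` of
`ℚ(√14)`, `ℚ(√3)`, `ℚ(√42)` have norms `2`, `6`, `7`, and adjoining the square roots of such
an element and of its conjugate gives a `D₄`-extension.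
-/

namespace Pool.Agent.Results.MP_0ba956_nt.KInD4

open Pool.Agent.H16.QD4 IntermediateField

/-- the square of a root `α` of the octic -/
theorem sq_eq (Ω : Type*) [Field Ω] (X0 Y0 α : Ω) (hX : X0 ^ 2 = 3)
    (hY : Y0 ^ 2 = 14) (hα : α ^ 8 + 84 * α ^ 6 + 1260 * α ^ 4 + 5292 * α ^ 2 + 441 = 0) :
    ∃ X Y : Ω, X ^ 2 = 3 ∧ Y ^ 2 = 14 ∧ 2 * α ^ 2 = (Y - 4) * (3 + X) * (7 + X * Y) := by
  obtain ⟨Y, hY2, hYe⟩ : ∃ Y : Ω, Y ^ 2 = 14 ∧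
      (α ^ 2 + 21) ^ 2 - 126 = Y * (9 * α ^ 2 + 84) := by
    have : ((α ^ 2 + 21) ^ 2 - 126) ^ 2 = (Y0 * (9 * α ^ 2 + 84)) ^ 2 := by
      rw [mul_pow, hY]
      linear_combination hα
    rcases sq_eq_sq_iff_eq_or_eq_neg.1 this with h | h
    · exact ⟨Y0, hY, h⟩
    · exact ⟨-Y0, by rw [neg_sq, hY], by rw [h]; ring⟩
  obtain ⟨X, hX2, hXe⟩ : ∃ X : Ω, X ^ 2 = 3 ∧
      2 * (α ^ 2 + 21) - 9 * Y = X * (14 - 5 * Y) := by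
    have : (2 * (α ^ 2 + 21) - 9 * Y) ^ 2 = (X0 * (14 - 5 * Y)) ^ 2 := by
      rw [mul_pow, hX]
      linear_combination 4 * hYe + 6 * hY2
    rcases sq_eq_sq_iff_eq_or_eq_neg.1 this with h | h
    · exact ⟨X0, hX, h⟩
    · exact ⟨-X0, by rw [neg_sq, hX], by rw [h]; ring⟩
  refine ⟨X, Y, hX2, hY2, ?_⟩
  linear_combination hXe - (Y ^ 2 - 4 * Y) * hX2 - (3 + 3 * X) * hY2

/-- `K = ℚ(α)` is contained in a compositum of three `D₄`-extensions of `ℚ`. -/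
theorem result (Ω : Type*) [Field Ω] [Algebra ℚ Ω] [IsAlgClosure ℚ Ω] (α : Ω)
    (hα : α ^ 8 + 84 * α ^ 6 + 1260 * α ^ 4 + 5292 * α ^ 2 + 441 = 0) :
    ∃ L₁ L₂ L₃ : IntermediateField ℚ Ω, IsGExt (DihedralGroup 4) L₁ ∧
      IsGExt (DihedralGroup 4) L₂ ∧ IsGExt (DihedralGroup 4) L₃ ∧
      IntermediateField.adjoin ℚ {α} ≤ L₁ ⊔ L₂ ⊔ L₃ := by
  have hmap : ∀ n : ℕ, algebraMap ℚ Ω (n : ℚ) = (n : Ω) := fun n => map_natCast _ n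
  have h2 : (2 : Ω) ≠ 0 := by
    have h := (algebraMap ℚ Ω).injective.ne (show ((2 : ℕ) : ℚ) ≠ 0 by norm_num)
    rw [hmap, map_zero] at h
    exact_mod_cast h
  obtain ⟨X0, hX0⟩ := exists_sqrt (Ω := Ω) 3
  obtain ⟨Y0, hY0⟩ := exists_sqrt (Ω := Ω) 14
  obtain ⟨X, Y, hX, hY, hsq⟩ := sq_eq Ω X0 Y0 α hX0 hY0 hα
  obtain ⟨A1, hA1⟩ := exists_sqrt (Ω := Ω) (-4 + Y)
  obtain ⟨B1, hB1⟩ := exists_sqrt (Ω := Ω) (-4 - Y)
  obtain ⟨A2, hA2⟩ := exists_sqrt (Ω := Ω) (3 + X)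
  obtain ⟨B2, hB2⟩ := exists_sqrt (Ω := Ω) (3 - X)
  obtain ⟨A3, hA3⟩ := exists_sqrt (Ω := Ω) (7 + X * Y)
  obtain ⟨B3, hB3⟩ := exists_sqrt (Ω := Ω) (7 - X * Y)
  obtain ⟨L₁, hL₁, hA1L, hB1L⟩ := dih_ext (F := ℚ) (14 : ℚ) (-4) 1 Y A1 B1
    (by rw [hY, map_ofNat]) (by rw [hA1, map_neg, map_ofNat, map_one, one_mul])
    (by rw [hB1, map_neg, map_ofNat, map_one, one_mul]) (by norm_num) (by norm_num)
    (by norm_num)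
  obtain ⟨L₂, hL₂, hA2L, hB2L⟩ := dih_ext (F := ℚ) (3 : ℚ) 3 1 X A2 B2
    (by rw [hX, map_ofNat]) (by rw [hA2, map_ofNat, map_one, one_mul])
    (by rw [hB2, map_ofNat, map_one, one_mul]) (by norm_num) (by norm_num)
    (by norm_num)
  obtain ⟨L₃, hL₃, hA3L, hB3L⟩ := dih_ext (F := ℚ) (42 : ℚ) 7 1 (X * Y) A3 B3
    (by rw [mul_pow, hX, hY, map_ofNat]; norm_num)
    (by rw [hA3, map_ofNat, map_one, one_mul])
    (by rw [hB3, map_ofNat, map_one, one_mul]) (by norm_num) (by norm_num)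
    (by norm_num)
  refine ⟨L₁, L₂, L₃, hL₁, hL₂, hL₃, ?_⟩
  rw [IntermediateField.adjoin_simple_le_iff]
  have hAB : (A1 * B1) ^ 2 = 2 := by
    rw [mul_pow, hA1, hB1]
    linear_combination -hY
  have hAB0 : A1 * B1 ≠ 0 := by
    intro h
    rw [h] at hAB
    apply h2
    rw [← hAB]; ring
  have hα2 : α ^ 2 = (A1 * A2 * A3 / (A1 * B1)) ^ 2 := by
    rw [div_pow, hAB, mul_pow, mul_pow, hA1, hA2, hA3, eq_div_iff h2]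
    linear_combination hsq
  have hmem : A1 * A2 * A3 / (A1 * B1) ∈ L₁ ⊔ L₂ ⊔ L₃ := by
    have i1 : L₁ ≤ L₁ ⊔ L₂ ⊔ L₃ := le_sup_left.trans le_sup_left
    have i2 : L₂ ≤ L₁ ⊔ L₂ ⊔ L₃ := le_sup_right.trans le_sup_left
    have i3 : L₃ ≤ L₁ ⊔ L₂ ⊔ L₃ := le_sup_right
    exact div_mem (mul_mem (mul_mem (i1 hA1L) (i2 hA2L)) (i3 hA3L))
      (mul_mem (i1 hA1L) (i1 hB1L))
  rcases sq_eq_sq_iff_eq_or_eq_neg.1 hα2 with h | h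
  · rw [h]; exact hmem
  · rw [h]; exact neg_mem hmem

end Pool.Agent.Results.MP_0ba956_nt.KInD4
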